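import Pool.Agent.H7.HD.Targets9
import Pool.Agent.H7.HD.All

/-!
# MP_e37c09_lc, module OC: the case of points of cofinality `ω`
-/

open Ordinal Cardinal Order Set
open scoped ZFSet

universe u

namespace Pool.Agent.H35.HD9.OC

open _root_.HD

/-- the function with code `f` is definable -/
theorem dr_af {en : Ordinal.{u} → ZFSet.{u}} (h : DO fun w => w 2 = af en (w 1) (w 0))
    (f : Ordinal.{u}) : DR fun a b => b = af en f a :=
  DO.sub (R := fun x w => w 1 = af en x (w 0)) f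
    (h.ren fun n => if n = 0 then 1 else if n = 1 then 0 else 2)

theorem do_le {g h : Ordinal.{u} → Ordinal.{u}} (hg : DR fun a b => b = g a)
    (hh : DR fun a b => b = h a) : DO fun w : ℕ → Ordinal.{u} => g (w 0) ≤ h (w 0) := by
  have h1 : DO fun w : ℕ → Ordinal.{u} => ∃ x, x = g (w 0) ∧ ∃ y, y = h (w 0) ∧ x ≤ y := by
    refine DO.ex (R := fun x w => x = g (w 0) ∧ ∃ y, y = h (w 0) ∧ x ≤ y)
      ((DO.s2 (X := fun a b => b = g a) hg 1 0).and ?_)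
    exact DO.ex (R := fun y w => y = h (w 1) ∧ w 0 ≤ y)
      ((DO.s2 (X := fun a b => b = h a) hh 2 0).and (DO.le 1 0))
  exact h1.congr fun w => by simp

theorem dr_min {g h : Ordinal.{u} → Ordinal.{u}} (hg : DR fun a b => b = g a)
    (hh : DR fun a b => b = h a) : DR fun a b => b = min (g a) (h a) := by
  have h1 := do_le hg hh
  refine ((h1.and hg).or (h1.not.and hh)).congr fun w => ?_
  by_cases h2 : g (w 0) ≤ h (w 0)
  · simp [h2]
  · simp [h2, min_eq_right (not_le.1 h2).le]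

theorem X (hLF : T_LF.{u}) (hEF : T_EF.{u}) (hLX : T_LX.{u}) (hGO : T_GO.{u}) (hCH : T_CH.{u})
    (hIX : T_IX.{u}) (hWF : T_WF.{u}) (hFD : T_FD.{u}) (hPK : T_PK.{u}) : T_OC.{u} := by
  intro D G K hBG hK hGK T y hT hy
  obtain ⟨en, hen⟩ := All.en.{u}
  have hDG : D ≤ G := hBG.dg
  have hG0 : ℵ₀ < G := hBG.dunc.trans_le hDG
  have hGK' : G < K := (Order.lt_succ G).trans hGK
  have hK0 : ℵ₀ < K := hG0.trans hGK'
  have hKc : K.ord.cof = K := hK.cof_ord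
  have hKcof : ℵ₀ < K.ord.cof := by rw [hKc]; exact hK0
  have hGc : G < K.ord.cof := by rw [hKc]; exact hGK'
  have hreg : (ℵ₀ : Cardinal.{u}).IsRegular := Cardinal.isRegular_aleph0
  obtain ⟨hE1, hE2, hE3, hE4⟩ := All.ea en hen
  obtain ⟨μ, hμ⟩ : ∃ μ, μ = (ℵ₀ : Cardinal.{u}).ord := ⟨_, rfl⟩
  -- an atom
  obtain ⟨c, hat, hTc⟩ : ∃ c, Atom en μ K.ord c ∧ Pos μ K.ord (T ∩ E en c) := by
    obtain ⟨τ, hτ, e, he, hcov⟩ := All.hc en hen G ℵ₀ K hBG.greg hG0 hreg hG0 hK hGK'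
      (All.ha _ _ _ (hBG.ns ℵ₀ hreg hBG.dunc K.ord hGc))
      (fun X hX hP => hBG.atm en hen ℵ₀ hreg hBG.dunc K.ord hGc X hX hP)
    rw [← hμ] at he hcov hT
    by_contra hno
    have hpart : ∀ i < τ, ¬ Pos μ K.ord (T ∩ E en (e i)) := fun i hi hp => hno ⟨e i, he i hi, hp⟩
    have hτK : τ.card < K.ord.cof := by
      rw [hKc]
      have h2 : τ.card < G := by
        rw [← Cardinal.card_ord G]
        exact (Cardinal.lt_ord.1 (by rwa [Cardinal.card_ord]))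
      exact h2.trans hGK'
    have h3 := All.va μ K.ord hKcof τ hτK (fun i => T ∩ E en (e i)) hpart
    have h4 := null_union All.va hKcof hcov h3
    refine h4 (hT.mono fun ν hν hm _ => ?_)
    by_cases h5 : ∀ i < τ, ν ∉ E en (e i)
    · exact Or.inl h5
    · push Not at h5
      obtain ⟨i, hi, h6⟩ := h5
      exact Or.inr ⟨i, hi, hm, h6⟩
  obtain ⟨hI1, hI2, hI3, hI4, hI5, hI6⟩ := hIX en hen
  obtain ⟨hF1, hF2⟩ := hFD en hen
  obtain ⟨p, hp⟩ := hF2 (pn en) hI2 K.ord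
  -- the minimal function
  let N : Set Ordinal.{u} := {f | Pos μ K.ord {a | a ∈ T ∩ E en c ∧ ix en a (y a) < af en f a}}
  have hpN : p ∈ N := by
    refine hTc.mono fun a ha haT _ => ⟨haT, ?_⟩
    rw [hp a ha]
    have h1 := hy a haT.1 ha
    exact (hI4 a (y a) h1.1 h1.2).1
  obtain ⟨f, hfN, hmin⟩ := hWF μ K.ord (E en c) hKcof hat.pos N (af en) ⟨p, hpN⟩
  have hfdr := dr_af hF1 f
  -- `f` is almost everywhere at most `pn`
  have hZ1 : ¬ Pos μ K.ord {a | a ∈ E en c ∧ pn en a < af en f a} := by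
    obtain ⟨x, hx⟩ := hE3 {a | af en f a ≤ pn en a} (do_le hfdr hI2) K.ord
    have h1 : Pos μ K.ord {a | a ∈ E en c ∧ af en f a ≤ af en p a} := not_not.1 (hmin p hpN)
    have h2 : Pos μ K.ord (E en c ∩ E en x) := by
      refine h1.mono fun a ha hm _ => ⟨hm.1, ?_⟩
      rw [hx]
      refine ⟨?_, ha⟩
      have h3 := hm.2
      rw [hp a ha] at h3
      exact h3
    have h3 : ¬ Pos μ K.ord (E en c \ E en x) := fun h => hat.ult x ⟨h2, h⟩
    refine fun h => h3 (h.mono fun a ha hm _ => ⟨hm.1, fun hax => ?_⟩)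
    rw [hx] at hax
    exact absurd hax.1 (not_le.2 hm.2)
  obtain ⟨f2, hf2⟩ := hF2 (fun a => min (af en f a) (pn en a)) (dr_min hfdr hI2) K.ord
  have hf2pn : ∀ a < K.ord, af en f2 a ≤ pn en a := fun a ha => by
    rw [hf2 a ha]; exact min_le_right _ _
  have hf2f : ∀ a < K.ord, af en f2 a ≤ af en f a := fun a ha => by
    rw [hf2 a ha]; exact min_le_left _ _
  obtain ⟨e, he⟩ := hEF en D G K c f2 hen hBG hK hGK' fun a ha =>
    (hf2pn a ha).trans_lt (hI6 K a hK (hPK D G K hBG hK hGK' a ha))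
  rw [← hμ] at he
  have hLF' := hLF en K c f2 e hen hK hK0
  rw [← hμ] at hLF'
  obtain ⟨h, θ, C, hle, hbel, hLU, hC, hCLU⟩ := hLF' hat he
  obtain ⟨W, hW⟩ := hBG.w K.ord (by rw [hKc]; exact hDG.trans hGK'.le)
  have hLX' := hLX en D G K c h θ C W hen hBG hK hGK'
  rw [← hμ] at hLX'
  have hWLU := hLX' hat hW hC hCLU
  have hGO' := hGO en D G K c f2 h W hen hBG hK hGK
  rw [← hμ] at hGO'
  have hZ2 := hGO' hat hW hf2pn hle hbel hLU hWLU
  -- `h2 < h` on a positive set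
  have hT2 : Pos μ K.ord {a | a ∈ T ∩ E en c ∧ ix en a (y a) < h a} := by
    refine (pos_diff All.va hKcof (pos_diff All.va hKcof hfN hZ1) hZ2).mono
      fun a ha hm _ => ⟨hm.1.1.1, ?_⟩
    have h1 : af en f a ≤ pn en a := by
      by_contra h1
      exact hm.1.2 ⟨hm.1.1.1.2, not_le.1 h1⟩
    have h2 : af en f2 a ≤ h a := by
      by_contra h2
      exact hm.2 ⟨hm.1.1.1.2, not_le.1 h2⟩
    rw [hf2 a ha, min_eq_left h1] at h2
    exact hm.1.1.2.trans_le h2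
  obtain ⟨e0, he0, hT3⟩ := hLU.lub _ (fun a => ix en a (y a)) hT2
    fun a ha _ => ⟨ha.1.2, ha.2⟩
  have hLw : Lw μ K.ord (E en c) (af en e0) (af en f) := by
    refine fun hpos => he0 (hpos.mono fun a ha hm _ => ⟨hm.1, ?_⟩)
    exact ((hle a).trans (hf2f a ha)).trans hm.2
  have hN0 : ¬ Pos μ K.ord {a | a ∈ T ∩ E en c ∧ ix en a (y a) < af en e0 a} :=
    fun hpos => hmin e0 hpos hLw
  -- the set
  have hCH' := hCH en K c (af en e0) hen hK hK0
  rw [← hμ] at hCH'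
  obtain ⟨A, hA1, hA2, hZ3⟩ := hCH' hat (dr_af hF1 e0)
  refine ⟨A, hA1, hA2, ?_⟩
  rw [← hμ]
  refine (pos_diff All.va hKcof (pos_diff All.va hKcof hT3 hN0) hZ3).mono
    fun a ha hm _ => ⟨hm.1.1.1.1.1, ?_⟩
  have haT : a ∈ T ∩ E en c := hm.1.1.1.1
  have h1 : ix en a (y a) = af en e0 a := by
    refine le_antisymm hm.1.1.2 (not_lt.1 fun h1 => hm.1.2 ⟨haT, h1⟩)
  have h2 : ∀ ζ < a, (PX en a (af en e0 a) ζ ↔ ζ.toZFSet ∈ A) := by
    by_contra h2
    exact hm.2 ⟨haT.2, h2⟩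
  have h3 := hy a haT.1 ha
  have h4 := (hI4 a (y a) h3.1 h3.2).2
  rw [h1] at h4
  ext z
  rw [ZFSet.mem_inter]
  constructor
  · intro hz
    have hza := h3.2 hz
    obtain ⟨ζ, hζ, rfl⟩ := mem_toZFSet_iff.1 hza
    exact ⟨(h2 ζ hζ).1 ((h4 ζ hζ).2 hz), hza⟩
  · rintro ⟨hzA, hza⟩
    obtain ⟨ζ, hζ, rfl⟩ := mem_toZFSet_iff.1 hza
    exact (h4 ζ hζ).1 ((h2 ζ hζ).2 hzA)

end Pool.Agent.H35.HD9.OC
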